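import Pool.Agent.KT3.StmtsA

/-!
# Row FAY of squad KT3: the family of all top simplices
-/

set_option autoImplicit false

open Matrix Filter Topology

namespace Pool.Agent.KT3.H90

open Pool.Agent.PFS Pool.Agent.PFJ Pool.Agent.NBT

theorem fay : FayStmt := by
  intro n C Γ K hCC hK
  have hcard : 2 ≤ Fintype.card (Fin K) := by
    rw [Fintype.card_fin]
    exact hK
  refine { sub := le_rfl, pes := fun w hw => hw, inv := ?_, scl := ?_, cld := ?_, cpt := ?_ }
  · intro w hw g hg
    have h := (Pool.Agent.PFS.H60.elm n C Γ hCC (Fin K) w hw).2.1 g hg 1 one_pos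
    simpa using h
  · intro w hw r hr
    exact (Pool.Agent.PFS.H60.elm n C Γ hCC (Fin K) w hw).1 r hr
  · intro x w hx hlim hw
    have hs : Tendsto (fun m => ∑ i, x m i) atTop (𝓝 (∑ i, w i)) :=
      tendsto_finset_sum _ (fun i _ => hlim i)
    obtain ⟨φ, w', hφ, h1, -, h3⟩ := Pool.Agent.PFS.H37.lpsF n C Γ hCC (Fin K) hcard x
      (∑ i, w i) hx hw hs
    have e : w' = w := by
      funext i
      exact tendsto_nhds_unique (h1 i) ((hlim i).comp hφ.tendsto_atTop)
    rw [← e]
    exact h3
  · intro x hx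
    refine Pool.Agent.PFS.H60.zom n C Γ hCC (fun m => ∑ i, x m i) ?_ ?_
    · intro m
      have := (hx m).1.pos (fun _ => 1) (fun _ => one_pos)
      simpa using this
    · intro m
      have := (Pool.Agent.PFS.H60.elm n C Γ hCC (Fin K) (x m) (hx m)).2.2.2.1 (fun _ => 1)
        (fun _ => one_pos)
      simpa using this

end Pool.Agent.KT3.H90
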